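import Pool.Agent.Helper43.Gr.Goals
import Pool.Agent.Helper43.Gm.Goals

/-!
# Packet R0 (partial sums), MP_d3128a_ag, for helper43
-/

set_option autoImplicit false

namespace Pool.Agent.Helper43.Gr.PkR0

open Finset
open Pool.Agent.Helper43.Gm (st mv nn SS Run Pri)
open Pool.Agent.Helper43.Gr

theorem nn_congr {κ κ' x x' ν : ℕ → ℕ} {c z : ℕ} (hκ : ∀ y ≤ z, κ' y = κ y)
    (hx : ∀ y ≤ z, x' y = x y) : nn κ' x' ν c z = nn κ x ν c z := by
  have h1 : st κ' c z = st κ c z := by
    unfold st
    congr 1
    refine filter_congr fun y hy => ?_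
    rw [hκ y (mem_range.1 hy).le]
  have h2 : mv κ' x' ν c z = mv κ x ν c z := by
    unfold mv
    refine filter_congr fun y hy => ?_
    rw [hκ y (mem_range.1 hy).le, hx y (mem_range.1 hy).le]
  unfold nn
  rw [hκ z le_rfl, hx z le_rfl, h1, h2]

theorem run_mono {M R : ℕ} {ν κ x : ℕ → ℕ} (h : Run M R ν κ x) :
    ∀ d y, y + d < R → κ y ≤ κ (y + d) := by
  intro d
  induction d with
  | zero => intro y _; exact le_rfl
  | succ d ih =>
    intro y hy
    exact (ih y (by omega)).trans (h.mono (y + d) (by omega))

theorem goalR0 (hC : Pool.Agent.Helper43.Gm.GoalC) : GoalR0 := by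
  intro M R ν κ x h c
  rcases Nat.eq_zero_or_pos R with rfl | hR
  · simp
  set K := κ (R - 1) with hK
  have hle : ∀ y < R, κ y ≤ K := by
    intro y hy
    have := run_mono h (R - 1 - y) y (by omega)
    have e : y + (R - 1 - y) = R - 1 := by omega
    rw [e] at this
    exact this
  by_cases hc : K < c
  · have h0 : ∑ y ∈ range R, nn κ x ν c y = 0 := by
      refine sum_eq_zero fun y hy => ?_
      unfold nn
      rw [if_pos ((hle y (mem_range.1 hy)).trans_lt hc)]
    rw [h0]
    exact Nat.zero_le _
  set κ' : ℕ → ℕ := fun y => if y < R then κ y else K + 1 with hκ'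
  set x' : ℕ → ℕ := fun y => if y < R then x y else 0 with hx'
  have hrun : Run M (R + M) ν κ' x' := by
    refine ⟨h.ν1, h.νM, ?_, ?_, ?_⟩
    · intro y _
      simp only [hκ']
      by_cases h1 : y + 1 < R
      · rw [if_pos (by omega), if_pos h1]
        exact h.mono y h1
      · rw [if_neg h1]
        by_cases h2 : y < R
        · rw [if_pos h2]
          exact (hle y h2).trans (Nat.le_succ _)
        · rw [if_neg h2]
    · intro y _
      simp only [hκ', hx']
      by_cases h2 : y < R
      · rw [if_pos h2, if_pos h2]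
        exact h.le y h2
      · rw [if_neg h2]
        exact Nat.zero_le _
    · intro y _ h0 he
      simp only [hκ', hx'] at h0 he ⊢
      by_cases h2 : y < R
      · rw [if_pos h2] at h0 he ⊢
        by_cases h1 : y + 1 < R
        · rw [if_pos h1] at he ⊢
          exact h.inc y h1 h0 he
        · rw [if_neg h1] at he
          have := hle y h2
          omega
      · rw [if_neg h2] at h0
        omega
  rcases Nat.eq_zero_or_pos M with rfl | hM
  · have h1 := h.ν1 0
    have h2 := h.νM 0
    omega
  have hcz := hC M (R + M) ν κ' x' hrun c R (by omega) (by simp [hκ']; omega) le_rfl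
  rw [← hcz]
  calc ∑ y ∈ range R, nn κ x ν c y = ∑ y ∈ range R, nn κ' x' ν c y := by
        refine sum_congr rfl fun y hy => ?_
        have hy' := mem_range.1 hy
        refine (nn_congr ?_ ?_).symm
        · intro z hz
          simp only [hκ']
          rw [if_pos (by omega)]
        · intro z hz
          simp only [hx']
          rw [if_pos (by omega)]
    _ ≤ ∑ y ∈ range (R + M), nn κ' x' ν c y :=
        sum_le_sum_of_subset (range_subset_range.2 (Nat.le_add_right _ _))

end Pool.Agent.Helper43.Gr.PkR0
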